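import Pool.Agent.Lib.MP_2df7e1_an.Dense

/-!
# Having all special alpha-limit sets closed is a generic property of interval maps

The generic condition used: every nondegenerate open interval `J` of `[0,1]` has two iterates
`f^i(J)`, `f^j(J)` with `i < j` that meet.  The set of such maps contains a countable intersection
of dense open sets (`generic_NW`), and for such maps all special alpha-limit sets are closed
(`closed_sAlpha_of_NW`).
-/

namespace Pool.Agent.Results.MP_2df7e1_an.ClosedGeneric

open Filter Pool.Agent.Lib.MP_2df7e1_an

/-- The set of continuous maps `f : [0,1] → [0,1]` all of whose special alpha-limit sets are closed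
is comeager (residual) in the space of all continuous maps `[0,1] → [0,1]` with the uniform
metric. -/
theorem result :
    {f : C(unitInterval, unitInterval) | ∀ x : unitInterval, IsClosed (sAlpha f x)} ∈
      residual C(unitInterval, unitInterval) := by
  filter_upwards [generic_NW] with f hf x
  exact closed_sAlpha_of_NW f hf x

end Pool.Agent.Results.MP_2df7e1_an.ClosedGeneric
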